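import Pool.Agent.H45.SE.TarT

/-! # MP_eaeaf5_lc, module TEc: the copy is in the ground model; summary -/

set_option linter.unusedVariables false

open Ordinal Order Set
open scoped ZFSet

namespace SE

open SF

namespace H48c

/-- the range of a function is the image of its domain -/
theorem rg_eq {a b f : V} (h : ZFSet.IsFunc a b f) : rg f = im f a := by
  ext y
  unfold im
  rw [mem_rg, mem_imS]
  constructor
  · rintro ⟨x, hx⟩
    exact ⟨x, (ZFSet.pair_mem_prod.1 (h.1 hx)).1, app_eq (svl_of_isFunc h) hx⟩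
  · rintro ⟨x, hx, rfl⟩
    exact ⟨x, pair_app_mem h hx⟩

theorem im_congr {f f' a : V} (h : ∀ i ∈ a, app f i = app f' i) : im f a = im f' a := by
  ext y
  unfold im
  rw [mem_imS, mem_imS]
  constructor
  · rintro ⟨x, hx, rfl⟩
    exact ⟨x, hx, (h x hx).symm⟩
  · rintro ⟨x, hx, rfl⟩
    exact ⟨x, hx, h x hx⟩

end H48c

open H48c in
theorem pf_TEc (hBA : T_BA) (hBBa : T_BBa) (hBJ : T_BJ) (hBR : T_BR)
    (hTA : T_TA) (hTBd : T_TBd) (hTEa : T_TEa) (hTEb : T_TEb) : T_TEc := by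
  intro D hD g π0 ρ0 ρ0' p0 ρ1 p1 fl hC π ρ1' hπ hρ1'
  have kN : ZFm D.N := hD.zfc.toZFCm.toZFm
  have hHt : ∀ x ∈ D.H, ∀ y ∈ x, y ∈ D.H := hD.zfH.trans
  obtain ⟨hNL, -, hHN, hPR, -⟩ := hBJ D hD
  obtain ⟨c1, c2, c3⟩ := hTEb D hD g π0 ρ0 ρ0' p0 ρ1 p1 fl hC
  rw [← hρ1'] at c1
  rw [← hπ, ← hρ1'] at c2
  rw [← hπ] at c3
  obtain ⟨b1, -, -, -, -, -, hCld⟩ := hBA
  have hTr0 : Tr ρ0 := (hCld D.L ρ0 hC.i.c).1
  have hm0 : ∀ i ∈ ρ0, app π0 i ∈ ρ0' := fun i hi => app_mem hC.i.i.fn hi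
  obtain ⟨e1, e2, e3, e4, e5⟩ := hTEa D.L g π0 ρ0 ρ0' p1 fl ρ1 hC.c hC.sub hTr0 hm0
    hC.i.i.inj hC.fre hC.p π hπ
  rw [← hρ1'] at e1 e3
  -- `π` and `ρ1'` are in the ground model
  have hNρ1 : D.N ρ1 := hHN ρ1 hC.h
  have hNp1 : D.N p1 := kN.trans _ (hPR ρ1 hNρ1).1 p1 hC.p
  have hIn : In D.N (cons D.L (cons g (cons π0 (cons ρ0 (cons p1 (cons fl fun _ => ρ1)))))) :=
    In.cons (In.cons (In.cons (In.cons (In.cons (In.cons (fun _ => hNρ1) (hHN fl hC.fl)) hNp1)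
      (hHN ρ0 hC.i.h)) hC.i.n) (hHN g hC.gH)) hNL
  obtain ⟨-, -, t1, t2, -, -⟩ := hTA
  have hNπ : D.N π := by
    rw [hπ]
    exact t1.1 D.N kN _ hIn
  have hNρ' : D.N ρ1' := by
    rw [hρ1']
    exact t2.1 D.N kN _ hIn
  obtain ⟨r1, r2, -, r4, r5, r6, -, -, -, r10⟩ := hBR D hD
  obtain ⟨d1, d2, d3, d4, -⟩ := hTBd π ρ1 ρ1' e1
  obtain ⟨k1, -, -, -, -, k6, k7, k8, k9, -⟩ := hBBa
  -- the elements of `ρ1'` are in `H`
  have key : ∀ α : Ordinal.{0}, ∀ l ∈ ρ1, l.rank = α → app π l ∈ D.H := by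
    intro α
    induction α using WellFoundedLT.induction with
    | ind α ih =>
      intro l hl hα
      by_cases hl0 : l ∈ ρ0
      · rw [e4 l hl0]
        exact hHt ρ0' hC.i.h' _ (hm0 l hl0)
      · have hj : app π l ∈ ρ1' := d3 l hl
        obtain ⟨hLab, hlSj⟩ := c1 _ hj
        obtain ⟨-, e7⟩ := e5 l hl hl0
        have hsub : lS l ⊆ ρ1 := (hC.c l hl).2
        obtain ⟨-, f2, f3, -⟩ := d4 (lS l) hsub
        have hlSl : lS l ∈ D.H := (r5 ρ1 hC.h).2.2.2.1 l hl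
        have hNf : D.N (rst (lS l) π) :=
          k1.1 D.N kN (cons (lS l) fun _ => π) (In.cons (fun _ => hNπ) (hHN _ hlSl))
        have hrg : rg (rst (lS l) π) = im π (lS l) := by
          rw [rg_eq f2]
          exact im_congr f3
        have him : im π (lS l) ∈ D.H := by
          have h1 := (r2 (rst (lS l) π) (lS l) hNf (svl_of_isFunc f2)
            (hTBd _ _ _ f2).2.1 hlSl ?_).1
          · rwa [hrg] at h1
          · rw [hrg]
            intro y hy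
            unfold im at hy
            obtain ⟨i, hi, rfl⟩ := mem_imS.1 hy
            exact ih i.rank (hα ▸ TT.rank_lS_lt hi) i (hsub hi) rfl
        have hlS : lS (app π l) ∈ D.H := by
          rw [e7, (b1 _ _ _ _ _ _ _).2.2.1]
          exact him
        have hlG : lG (app π l) ∈ D.H := by
          rw [e7, (b1 _ _ _ _ _ _ _).2.1]
          exact (r4 g hC.gH l (hHt ρ1 hC.h l hl)).1
        have hlE : lE (app π l) ∈ D.H := by
          rcases hLab.e with h | h | h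
          · rw [h]; exact r10 0
          · rw [h]; exact r10 1
          · rw [h]; exact r10 2
        have hNj : D.N (app π l) := kN.trans _ hNρ' _ hj
        have hnam := (r5 _ hlS).2.2.2.2
        have hY := hnam _ (k6.1 D.N kN (fun _ => app π l) fun _ => hNj) hLab.y
        have hZ := hnam _ (k7.1 D.N kN (fun _ => app π l) fun _ => hNj) hLab.z
        have hA := hnam _ (k8.1 D.N kN (fun _ => app π l) fun _ => hNj) hLab.a
        have hB := hnam _ (k9.1 D.N kN (fun _ => app π l) fun _ => hNj) hLab.b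
        rw [hLab.eq]
        exact r6 _ _ _ _ _ _ _ hlE hlG hlS hY hZ hA hB
  have hrgπ : rg π = ρ1' := by
    ext y
    rw [mem_rg]
    constructor
    · rintro ⟨x, hx⟩
      exact (ZFSet.pair_mem_prod.1 (e1.1 hx)).2
    · intro hy
      obtain ⟨i, hi, rfl⟩ := e3 y hy
      exact ⟨i, pair_app_mem e1 hi⟩
  have hρH : ρ1' ∈ D.H := by
    have h1 := (r2 π ρ1 hNπ d1 d2 hC.h ?_).1
    · rwa [hrgπ] at h1
    · rw [hrgπ]
      intro y hy
      obtain ⟨i, hi, rfl⟩ := e3 y hy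
      exact key _ i hi rfl
  refine ⟨⟨hNπ, hC.h, hρH, hC.c, c1, c2⟩, ?_, e4, c3, ?_, ?_⟩
  · intro j hj
    obtain ⟨i, hi, rfl⟩ := hC.i.i.onto j hj
    rw [← e4 i hi]
    exact d3 i (hC.sub hi)
  · intro j hj hj0
    obtain ⟨i, hi, rfl⟩ := e3 j hj
    refine ⟨i, hi, fun hi0 => hj0 ?_, rfl⟩
    rw [e4 i hi0]
    exact hm0 i hi0
  · intro l hl hl0
    obtain ⟨h1, h2⟩ := e5 l hl hl0
    obtain ⟨s1, s2, s3, s4, s5, -, -⟩ := b1 (nS 0) (ZFSet.pair g l) (im π (lS l))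
      (trn D.L π (rst (lS l) p1) (lS l) (im π (lS l)) (lY l))
      (sel (fl = ∅) (knm D.L (im π (lS l)) 0)
        (trn D.L π (rst (lS l) p1) (lS l) (im π (lS l)) (lZ l)))
      (knm D.L (im π (lS l)) 0) (knm D.L (im π (lS l)) 0)
    rw [← h2] at s1 s2 s3 s4 s5
    refine ⟨h1, s1, s2, s3, s4, fun hf => ?_, fun hf => ?_⟩
    · rw [s5, sel_pos hf]
    · rw [s5, sel_neg hf]

end SE
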