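import Pool.Agent.H45.SE.TarT

/-! # MP_eaeaf5_lc, module TP2: copies of states in the class `C(s)` -/

set_option linter.unusedVariables false

open Ordinal Order Set
open scoped ZFSet

namespace SE

open SF

theorem pf_TP2 (hBA : T_BA) (hBJ : T_BJ) (hBL : T_BL) (hZX : T_ZX) (hWD : T_WD)
    (hTHc : T_THc) (hTJ : T_TJ) (hTF : T_TF) : T_TP2 := by
  intro D hF G hG s hs hsL hTr ρ' G0 p' hE hCl hp'
  have hD : D.Ok := hF.ok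
  obtain ⟨hNL, -, hHN, hPR, hG1⟩ := hBJ D hD
  have hρH : ρ' ∈ D.H := hE.st.h
  have hNρ : D.N ρ' := hHN ρ' hρH
  have hc : Cld D.L ρ' := hE.st.c
  have hGn : D.Gn ρ' G0 := hE.st.g
  -- a condition which decides that the state is in the class
  obtain ⟨q0, hq0, hq0'⟩ := (hZX D hD ρ' hNρ hc _ ((hWD D hD hF.tab ρ' hρH hc).1 s hs hE.sub)).2.2
    G0 hGn hCl
  obtain ⟨-, ⟨u1, -, u3, u4, -⟩, -⟩ := (hG1 ρ' hNρ hc).2 G0 hGn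
  obtain ⟨-, v1, v2, v3⟩ := u4 p' hp' q0 hq0
  obtain ⟨p1, hp1⟩ : ∃ p1, p1 = jn q0 p' := ⟨_, rfl⟩
  rw [← hp1] at v1 v2 v3
  have hp1P : p1 ∈ D.P ρ' := u1 v1
  -- the restriction of `p1` is in the generic filter
  obtain ⟨-, w⟩ := hBL D hD ρ' G0 hNρ hc hGn
  obtain ⟨-, -, -, -, w5, -, -⟩ := w s (hHN s hs) hE.sub hTr
  have hrs : rst s p1 ∈ G := by
    have h1 := w5 p1 v1
    rw [hE.res] at h1
    unfold gs at h1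
    exact (ZFSet.mem_sep.1 h1).1
  have hall : ∀ G', D.Gn ρ' G' → p1 ∈ G' → D.Cl s ρ' G' := by
    intro G' hG' h1
    obtain ⟨-, ⟨-, -, x3, -, -⟩, -⟩ := (hG1 ρ' hNρ hc).2 G' hG'
    exact hq0' G' hG' (x3 p1 h1 q0 (u1 hq0) v2)
  have hn1 : nS 1 ∈ D.H := (Tm.nS 1).1 (· ∈ D.H) hD.zfH (fun _ => s) (fun _ => hs)
  have hn0 : nS 1 ≠ ∅ := fun h => absurd (nS_inj.1 (h.trans nS_zero.symm)) (by norm_num)
  obtain ⟨π, ρ'', G', y1, y2, y3, y4, y5, y6, y7, y8, y9, y10⟩ :=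
    hTJ D hF G hG s hs hsL hTr ρ' hρH hc hE.sub p1 hp1P hrs (nS 1) hn1
      (hTHc D hF s hs hsL hTr ρ' hρH hc hE.sub p1 hp1P hall)
  obtain ⟨-, ⟨-, -, x3, -, -⟩, -⟩ := (hG1 ρ' hNρ hc).2 G' y6
  obtain ⟨-, -, -, -, -, -, hCld⟩ := hBA
  refine ⟨G', ρ'', y9, x3 p1 y7 p' (u1 hp') v3, y1.h', y4, y5, (hCld D.L ρ'' y1.c').1, y10, ?_⟩
  intro a x hax
  obtain ⟨-, z⟩ := hTF D hD π ρ' ρ'' p1 y1 (y2 hn0) G' y6 y7
  rw [← y8]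
  exact (z a x).2 hax

end SE
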